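import Pool.Agent.H76.FE.Defs

/-!
# A model of `Nbhd` (corner test of the slim text)

For all `l` and all `b > 0` there is a term of the type `Nbhd l b`.

The global part: `D` is a threefold with `H^0 = H^3 = ℂ` and `H^1 = H^2 = 0`, with trivial normal bundle,
and `D_k = D × Spec ℂ[z]/z^k`; the dimension of `H^q(D_k, O(m D))` is `k` for `q = 0, 3`.

The local part: `Z` is the union of two lines through one point (the special point `none`). Over the
special point functions are the pairs of polynomials on the two branches with the same value at the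
origin; the general points are the points `1` of the two branches, functions there are formal power
series. The general fibre is an abelian surface (`H^1` of rank two, the local system of rank four), and
the thickenings are split.
-/

set_option autoImplicit false

open Finset

namespace Pool.Agent.H39.FE

open Pool.Agent.H31.ND Pool.Agent.H76.FE

/-! ## The global part -/

/-- the dimension of `H^q(D_k, O(m D))` -/
def nd : ℕ → ℕ → ℕ
  | 0, k => k
  | 1, _ => 0
  | 2, _ => 0
  | 3, k => k
  | _, _ => 0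

theorem nd_cases (q : ℕ) : (∀ k, nd q k = k) ∨ ∀ k, nd q k = 0 := by
  match q with
  | 0 => exact Or.inl fun _ => rfl
  | 1 => exact Or.inr fun _ => rfl
  | 2 => exact Or.inr fun _ => rfl
  | 3 => exact Or.inl fun _ => rfl
  | q + 4 => exact Or.inr fun _ => rfl

theorem nd_eq (q q' : ℕ) (h : q + q' = 3) (k : ℕ) : nd q k = nd q' k := by
  match q, q' with
  | 0, 3 => rfl
  | 1, 2 => rfl
  | 2, 1 => rfl
  | 3, 0 => rfl
  | 0, 0 => omega
  | 0, 1 => omega
  | 0, 2 => omega
  | 0, q' + 4 => omega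
  | 1, 0 => omega
  | 1, 1 => omega
  | 1, q' + 3 => omega
  | 2, 0 => omega
  | 2, q' + 2 => omega
  | 3, q' + 1 => omega
  | q + 4, q' => omega

/-- extension by zero -/
def ex {N : ℕ} (u : Fin N → ℂ) (j : ℕ) : ℂ := if h : j < N then u ⟨j, h⟩ else 0

theorem ex_add {N : ℕ} (u v : Fin N → ℂ) (j : ℕ) : ex (u + v) j = ex u j + ex v j := by
  unfold ex
  split_ifs <;> simp

theorem ex_smul {N : ℕ} (c : ℂ) (u : Fin N → ℂ) (j : ℕ) : ex (c • u) j = c * ex u j := by
  unfold ex
  split_ifs <;> simp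

theorem ex_lt {N : ℕ} (u : Fin N → ℂ) (i : Fin N) : ex u i = u i := by
  unfold ex
  rw [dif_pos i.2]

theorem ex_of_lt {N : ℕ} (u : Fin N → ℂ) (j : ℕ) (h : j < N) : ex u j = u ⟨j, h⟩ := by
  unfold ex
  rw [dif_pos h]

theorem ex_zero {N : ℕ} (j : ℕ) : ex (0 : Fin N → ℂ) j = 0 := by
  unfold ex
  split_ifs <;> simp

/-- restriction -/
def cut {N : ℕ} (M : ℕ) (u : Fin N → ℂ) : Fin M → ℂ := fun i => ex u i

/-- multiplication by `z` -/
def shift {N : ℕ} (M : ℕ) (u : Fin N → ℂ) : Fin M → ℂ :=
  fun i => if (i : ℕ) = 0 then 0 else ex u ((i : ℕ) - 1)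

theorem cut_lin {N : ℕ} (M : ℕ) : Lin (cut M : (Fin N → ℂ) → Fin M → ℂ) :=
  ⟨fun x y => funext fun i => ex_add x y i, fun t x => funext fun i => ex_smul t x i⟩

theorem shift_lin {N : ℕ} (M : ℕ) : Lin (shift M : (Fin N → ℂ) → Fin M → ℂ) := by
  constructor
  · intro x y
    funext i
    simp only [shift, Pi.add_apply, ex_add]
    split_ifs <;> simp
  · intro t x
    funext i
    simp only [shift, Pi.smul_apply, ex_smul, smul_eq_mul]
    split_ifs <;> simp

theorem cut_onto {N : ℕ} (M : ℕ) (h : M ≤ N) (t : Fin M → ℂ) :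
    ∃ u : Fin N → ℂ, cut M u = t := by
  refine ⟨fun i => ex t i, funext fun i => ?_⟩
  unfold cut
  rw [ex_of_lt _ _ (lt_of_lt_of_le i.2 h)]
  exact ex_lt t i

/-- the pairing: the coefficient of `z^(N-1)` in the product -/
def P {N N' : ℕ} (u : Fin N → ℂ) (v : Fin N' → ℂ) : ℂ := ∑ j ∈ range N, ex u j * ex v (N - 1 - j)

theorem P_form {N N' : ℕ} (u : Fin N → ℂ) : Form (P u : (Fin N' → ℂ) → ℂ) := by
  constructor
  · intro x y
    unfold P
    rw [← Finset.sum_add_distrib]
    exact Finset.sum_congr rfl fun j _ => by rw [ex_add]; ring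
  · intro t x
    unfold P
    rw [Finset.mul_sum]
    exact Finset.sum_congr rfl fun j _ => by rw [ex_smul]; ring

/-- the basis -/
def bs {N : ℕ} (i : Fin N) : Fin N → ℂ := fun j => if j = i then 1 else 0

theorem ex_bs {N : ℕ} (i : Fin N) (j : ℕ) : ex (bs i) j = if j = (i : ℕ) then 1 else 0 := by
  unfold ex bs
  by_cases h : j < N
  · rw [dif_pos h]
    by_cases h' : j = i
    · rw [if_pos h', if_pos (Fin.ext h')]
    · rw [if_neg h', if_neg fun e => h' (congrArg Fin.val e)]
  · rw [dif_neg h, if_neg]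
    intro e
    exact h (e ▸ i.2)

theorem P_bs {N N' : ℕ} (u : Fin N → ℂ) (i : Fin N') (h : N = N') :
    P u (bs i) = ex u (N - 1 - i) := by
  unfold P
  have hi := i.2
  rw [Finset.sum_eq_single (N - 1 - (i : ℕ))]
  · rw [ex_bs, if_pos (by omega), mul_one]
  · intro j hj hne
    rw [Finset.mem_range] at hj
    rw [ex_bs, if_neg (by omega), mul_zero]
  · intro hn
    rw [Finset.mem_range] at hn
    omega

theorem P_inj {N N' : ℕ} (h : N = N') (u u' : Fin N → ℂ)
    (hu : (P u : (Fin N' → ℂ) → ℂ) = P u') : u = u' := by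
  funext i
  have h1 : N - 1 - (i : ℕ) < N' := by
    have := i.2
    omega
  have h2 := congrFun hu (bs ⟨N - 1 - i, h1⟩)
  rw [P_bs _ _ h, P_bs _ _ h] at h2
  have h3 : N - 1 - (N - 1 - (i : ℕ)) = i := by
    have := i.2
    omega
  rw [h3, ex_lt, ex_lt] at h2
  exact h2

theorem sum_bs {N : ℕ} (v : Fin N → ℂ) : v = ∑ i, v i • bs i := by
  funext j
  rw [Finset.sum_apply, Finset.sum_eq_single j]
  · simp [bs]
  · intro i _ hij
    simp [bs, hij.symm]
  · simp

theorem form_sum {N : ℕ} (f : (Fin N → ℂ) → ℂ) (hf : Form f) (v : Fin N → ℂ) :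
    f v = ∑ i, v i * f (bs i) := by
  have h0 : f 0 = 0 := by
    have := hf.2 0 0
    rwa [zero_smul, zero_mul] at this
  have h1 : ∀ s : Finset (Fin N), f (∑ i ∈ s, v i • bs i) = ∑ i ∈ s, v i * f (bs i) := by
    intro s
    induction s using Finset.induction_on with
    | empty => simpa using h0
    | insert a s ha ih => rw [Finset.sum_insert ha, Finset.sum_insert ha, hf.1, hf.2, ih]
  conv_lhs => rw [sum_bs v]
  exact h1 _

theorem P_onto {N N' : ℕ} (h : N = N') (f : (Fin N' → ℂ) → ℂ) (hf : Form f) :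
    ∃ u : Fin N → ℂ, P u = f := by
  subst h
  refine ⟨fun i => f (bs ⟨N - 1 - i, by have := i.2; omega⟩), ?_⟩
  funext v
  rw [form_sum _ (P_form _) v, form_sum f hf v]
  refine Finset.sum_congr rfl fun i _ => ?_
  rw [P_bs _ _ rfl]
  congr 1
  have hi := i.2
  rw [ex_of_lt _ _ (by omega)]
  congr 2
  exact Fin.ext (by show N - 1 - (N - 1 - (i : ℕ)) = i; omega)

theorem P_shift {N N' M M' : ℕ} (h : N = N') (h' : M = M')
    (hM : M = N + 1 ∨ M = 0) (u : Fin M → ℂ) (y : Fin N' → ℂ) (hN : M = 0 → N = 0) :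
    P (cut N u) y = P u (shift M' y) := by
  subst h h'
  rcases hM with hM | hM
  · subst hM
    unfold P
    rw [Finset.sum_range_succ]
    have h1 : ex (shift (N + 1) y) (N + 1 - 1 - N) = 0 := by
      rw [ex_of_lt _ _ (by omega)]
      simp [shift]
    rw [h1, mul_zero, add_zero]
    refine Finset.sum_congr rfl fun j hj => ?_
    rw [Finset.mem_range] at hj
    rw [ex_of_lt (cut N u) _ hj, ex_of_lt (shift (N + 1) y) _ (by omega)]
    unfold cut shift
    have h2 : ¬ (N + 1 - 1 - j = 0) := by omega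
    simp only [h2, if_false]
    congr 2
    omega
  · have h2 := hN hM
    subst hM h2
    simp [P]

/-- The cohomology of the neighbourhoods. -/
def coh : Coh where
  h q k _ := nd q k
  res q k _ := cut (nd q k)
  d _ _ _ := fun _ _ => 0
  cup _ _ _ := fun _ _ _ => 0
  hT q k _ _ := nd q (k + 1)
  rT q k _ _ := cut (nd q k)
  rD q _ _ _ := cut (nd q 1)
  iT q k _ _ := shift (nd q (k + 1))
  dl _ _ _ _ := fun _ _ => 0
  pT _ _ _ _ _ _ _ := P
  pH _ _ _ _ _ := P

theorem nd_mono (q k k' : ℕ) (h : k ≤ k') : nd q k ≤ nd q k' := by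
  rcases nd_cases q with h1 | h1
  · rw [h1, h1]
    exact h
  · rw [h1, h1]

theorem shift_zero (N M : ℕ) : shift M (0 : Fin N → ℂ) = 0 := by
  funext i
  simp [shift, ex_zero]

theorem shift_inj (q k : ℕ) (y y' : Fin (nd q k) → ℂ)
    (h : shift (nd q (k + 1)) y = shift (nd q (k + 1)) y') : y = y' := by
  funext i
  have hi := i.2
  rcases nd_cases q with h1 | h1
  · have h2 : (i : ℕ) + 1 < nd q (k + 1) := by
      have e1 := h1 k
      have e2 := h1 (k + 1)
      omega
    have h3 := congrFun h ⟨(i : ℕ) + 1, h2⟩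
    simpa [shift, ex_lt] using h3
  · have e1 := h1 k
    omega

theorem coh_exact (l : ℕ) : coh.Exact l where
  lin_res q k m := cut_lin _
  lin_d q k m := ⟨fun _ _ => (add_zero _).symm, fun t _ => (smul_zero t).symm⟩
  lin_cup q k m t := ⟨fun _ _ => (add_zero _).symm, fun t _ => (smul_zero t).symm⟩
  lin_iT q k m x := shift_lin _
  exact q k m t _ := ⟨fun _ => cut_onto _ (nd_mono q k (k + 1) (Nat.le_succ k)) t, fun _ => rfl⟩
  exact_rT q k m x u _ := add_zero _
  exact_rD q k m x u _ := rfl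
  exact_iT q k m x y _ hy := ⟨0, (shift_inj (q + 1) k y 0 (Eq.trans hy (shift_zero _ _).symm)).symm⟩
  inj_iT k m x y _ hy := shift_inj 0 k y 0 (Eq.trans hy (shift_zero _ _).symm)
  form q q' k m m' t := P_form t
  onto q q' k m m' x x' f _ hq _ _ hf := P_onto (nd_eq q q' hq (k + 1)) f hf
  inj q q' k m m' t t' _ hq _ ht := P_inj (nd_eq q q' hq k) t t' ht
  adjoint q q' k m m' x x' u y _ hq _ _ := by
    refine P_shift (nd_eq q q' hq k) (nd_eq q q' hq (k + 1)) ?_ u y ?_
    · rcases nd_cases q with h1 | h1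
      · exact Or.inl (by rw [h1, h1])
      · exact Or.inr (h1 _)
    · intro h
      rcases nd_cases q with h1 | h1
      · rw [h1] at h
        omega
      · exact h1 _
  dim q k m hq := by
    show nd q k = 0
    match q, hq with
    | q + 4, _ => rfl

theorem coh_one (q : ℕ) (m : ℤ) (k : ℕ) (u : Fin (nd q (k + 1)) → ℂ) :
    (Coh.one coh q m k u : Fin (nd q 1) → ℂ) = cut (nd q 1) u := by
  induction k with
  | zero =>
    funext i
    exact (ex_lt u i).symm
  | succ k ih =>
    have h1 : (Coh.one coh q m (k + 1) u : Fin (nd q 1) → ℂ) =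
      Coh.one coh q m k (cut (nd q (k + 1)) u) := rfl
    rw [h1, ih]
    funext i
    unfold cut
    rw [ex_of_lt _ _ (lt_of_lt_of_le i.2 (nd_mono q 1 (k + 1) (by omega)))]

/-- The covering attached to a section: the direct sum of all the eigenspaces. -/
def cover (k M : ℕ) (u : Fin (coh.h 0 k M) → ℂ) : coh.Cover k M 0 u where
  ext := add_zero _
  A q := ℤ → Fin (nd q (k + 1)) → ℂ
  B q := ℤ → Fin (nd q (k + 1)) → ℂ
  B' q := ℤ → Fin (nd q 1) → ℂ
  f _ y := y
  g q y m := cut (nd q 1) (y m)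
  dubois q y := by
    choose u hu using fun m => cut_onto (N := nd q (k + 1)) (nd q 1)
      (nd_mono q 1 (k + 1) (by omega)) (y m)
    exact ⟨u, funext hu⟩
  e _ m y := y m
  e' _ m y := y m
  e_g _ _ _ _ _ := rfl
  e_onto _ _ y _ _ := ⟨fun _ => y, rfl⟩

/-! ## The local part -/

open Polynomial

/-- the pairs of polynomials with the same value at the origin -/
def node : AddSubgroup (Bool → ℂ[X]) where
  carrier := {f | ∀ β β', (f β).eval 0 = (f β').eval 0}
  add_mem' := by
    intro f g hf hg β β'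
    simp only [Pi.add_apply, eval_add, hf β β', hg β β']
  zero_mem' := by
    intro β β'
    simp
  neg_mem' := by
    intro f hf β β'
    simp only [Pi.neg_apply, eval_neg, hf β β']

/-- the functions near a point of `Z` -/
def Fz : Option Bool → Type
  | none => node
  | some _ => Fun

noncomputable instance (z : Option Bool) : AddCommGroup (Fz z) :=
  match z with
  | none => inferInstanceAs (AddCommGroup node)
  | some _ => inferInstanceAs (AddCommGroup Fun)

/-- the numbers `h^q(O)` of an abelian surface -/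
abbrev hF : ℕ → ℕ
  | 0 => 1
  | 1 => 2
  | 2 => 1
  | _ => 0

abbrev Q (q : ℕ) : Type := Fin (hF q)

abbrev Rz (q k : ℕ) (z : Option Bool) : Type := Fin k → Q q → Fz z

/-- The direct images. -/
noncomputable def img : Img where
  Z := Option Bool
  G := Bool
  pt := some
  R q k _ z := Rz q k z
  res _ _ _ _ := fun u i => u i.castSucc
  mz q k _ z := fun u => (Fin.cons 0 u : Rz q (k + 1) z)

theorem one_apply (q : ℕ) (m : ℤ) (z : Option Bool) (k : ℕ) (u : Rz q (k + 1) z) (i : Fin 1) :
    (Img.one img q m z k u : Rz q 1 z) i = u 0 := by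
  induction k with
  | zero =>
    have : i = 0 := Subsingleton.elim _ _
    rw [this]
    rfl
  | succ k ih => exact ih (fun i => u i.castSucc)

theorem img_exact : img.Exact where
  add_res q k m z x y := rfl
  zero q m z y := by
    change Rz q 0 z at y
    exact (Subsingleton.elim (α := Rz q 0 z) y 0)
  ker q k m z y hy := by
    change Rz q (k + 1) z at y
    refine ⟨(fun i => y i.succ : Rz q k z), ?_⟩
    have h0 : y 0 = 0 := by
      have := one_apply q m z k y 0
      rw [← this, hy]
      rfl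
    change (Fin.cons 0 (fun i => y i.succ) : Rz q (k + 1) z) = y
    funext i
    refine Fin.cases ?_ (fun j => ?_) i
    · rw [h0, Fin.cons_zero]
    · rw [Fin.cons_succ]

theorem img_S (k : ℕ) : img.S k := by
  intro q m z y
  change Rz q k z at y
  refine ⟨(Fin.snoc y 0 : Rz q (k + 1) z), ?_⟩
  change (fun i : Fin k => (Fin.snoc y 0 : Rz q (k + 1) z) i.castSucc) = y
  funext i
  rw [Fin.snoc_castSucc]

/-- the classes at a general point -/
abbrev Gz (q k : ℕ) : Type := Fin k → Q q → Fun

/-- functions on the fibre times functions on the base, the product of truncated polynomials in `z` -/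
noncomputable def mulz (r k : ℕ) (x : Fin (k + 1) → Fin 1 → Fun) (y : Fin (k + 1) → Fin r → Fun) :
    Fin (k + 1) → Fin r → Fun :=
  fun i c => ∑ j : Fin (k + 1), if j ≤ i then x j 0 * y (i - j) c else 0

theorem mulz_zero (r k : ℕ) (x : Fin (k + 1) → Fin 1 → Fun) (y : Fin (k + 1) → Fin r → Fun)
    (c : Fin r) : mulz r k x y 0 c = x 0 0 * y 0 c := by
  unfold mulz
  rw [Finset.sum_eq_single 0]
  · simp
  · intro j _ hj
    rw [if_neg]
    intro h
    exact hj (le_antisymm h (Fin.zero_le _))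
  · simp

/-- the expansion of a polynomial at the point `1` -/
noncomputable def tay (p : ℂ[X]) : Fun := ((p.comp (X + C 1) : ℂ[X]) : PowerSeries ℂ)

theorem tay_mul (p q : ℂ[X]) : tay (p * q) = tay p * tay q := by
  unfold tay
  rw [mul_comp, Polynomial.coe_mul]

theorem tay_zero : tay 0 = 0 := by
  unfold tay
  rw [zero_comp, Polynomial.coe_zero]

theorem tay_X : tay X = co 1 := by
  unfold tay co
  rw [X_comp, Polynomial.coe_add, Polynomial.coe_X, Polynomial.coe_C, add_comm]

theorem tay_der (p : ℂ[X]) : PowerSeries.derivative ℂ (tay p) = tay (derivative p) := by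
  unfold tay
  rw [PowerSeries.derivative_coe, derivative_comp]
  simp

/-- the pairing of the vector bundles -/
noncomputable def pp (c v : Fin 2 → Fun) : Fun := c 0 * v 0 + c 1 * v 1

theorem pp_add (c x y : Fin 2 → Fun) : pp c (x + y) = pp c x + pp c y := by
  show c 0 * (x 0 + y 0) + c 1 * (x 1 + y 1) = (c 0 * x 0 + c 1 * x 1) + (c 0 * y 0 + c 1 * y 1)
  ring

theorem pp_smul (t : Fun) (c x : Fin 2 → Fun) : pp (t • c) x = t * pp c x := by
  show t * c 0 * x 0 + t * c 1 * x 1 = t * (c 0 * x 0 + c 1 * x 1)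
  ring

theorem pp_smul' (t : Fun) (c x : Fin 2 → Fun) : pp c (t • x) = t * pp c x := by
  show c 0 * (t * x 0) + c 1 * (t * x 1) = t * (c 0 * x 0 + c 1 * x 1)
  ring

theorem pp_zero (c x : Fin 2 → Fun) (h : c = 0) : pp c x = 0 := by
  rw [h]
  show (0 : Fun) * x 0 + 0 * x 1 = 0
  rw [zero_mul, zero_mul, add_zero]

/-- The symbol: all connecting maps are zero. -/
noncomputable def symb (n : ℕ) (a : ℤ) : Symbol img n a where
  rC _ := 2
  rB _ := 2
  rV _ := 4
  fn _ x := (x : Gz 0 1) 0 (0 : Fin 1)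
  cb _ x := (x : Gz 1 1) 0
  pair _ c v := pp c v
  mf _ x y := mulz 1 n x y
  mb _ x y := mulz 2 n x y
  d _ _ := 0
  dd _ _ := 0
  fl _ w := (fun i j => if i = 0 then PowerSeries.C (w (Fin.castLE (by decide) j)) else 0 :
    Gz 1 (n + 1))
  pr _ v := ![v 0, v 1]
  W _ := {0}
  Sp := Unit
  sp _ := (none : Option Bool)
  Br _ := Bool
  near _ β := (β : Bool)
  az _ _ := 1
  Reg _ _ := Set.range tay
  Lat _ _ := {v | ∃ w : Fin 4 → ℂ[X], v = fun i => tay (X * w i)}
  rho _ β j u := (fun i q => tay (((u : Rz 1 j none) i q).1 β) : Gz 1 j)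
  Om _ := Unit
  om _ _ := ()
  rs _ _ _ := 0
  Glob c := ∀ g, c g = 0

/-- the restriction to `D` at a general point -/
noncomputable def oneG (q : ℕ) (m : ℤ) (g : Bool) (n : ℕ) (u : Gz q (n + 1)) : Gz q 1 :=
  Img.one img q m (some g) n u

theorem oneG_apply (q : ℕ) (m : ℤ) (g : Bool) (n : ℕ) (u : Gz q (n + 1)) (i : Fin 1) :
    oneG q m g n u i = u 0 :=
  one_apply q m (some g) n u i

theorem symb_gen (n : ℕ) (a : ℤ) : (symb n a).Gen where
  fn_add g x y := rfl
  fn_inj g x hx := by
    change Gz 0 1 at x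
    have h1 : x 0 (0 : Fin 1) = 0 := hx
    funext i j
    have h2 : i = 0 := Subsingleton.elim _ _
    have h3 : j = (0 : Fin 1) := Subsingleton.elim (α := Fin 1) _ _
    rw [h2, h3]
    exact h1
  fn_onto g f := ⟨(fun _ _ => f : Gz 0 1), rfl⟩
  cb_add g x y := rfl
  cb_inj g x hx := by
    change Gz 1 1 at x
    funext i
    have h2 : i = 0 := Subsingleton.elim _ _
    rw [h2]
    exact hx
  pr_lin g := by
    constructor
    · intro x y
      funext i
      change Fin 2 at i
      fin_cases i <;> rfl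
    · intro t x
      funext i
      change Fin 2 at i
      fin_cases i <;> rfl
  pair_add g c x y := pp_add c x y
  pair_smul g t c x := pp_smul t c x
  pair_smul' g t c x := pp_smul' t c x
  fn_mf g x y := by
    change oneG 0 0 g n (mulz 1 n x y) 0 (0 : Fin 1) =
      oneG 0 0 g n x 0 (0 : Fin 1) * oneG 0 0 g n y 0 (0 : Fin 1)
    rw [oneG_apply, oneG_apply, oneG_apply]
    exact mulz_zero 1 n x y 0
  cb_mb g x y := by
    change oneG 1 a g n (mulz 2 n x y) 0 = oneG 0 0 g n x 0 (0 : Fin 1) • oneG 1 a g n y 0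
    funext c
    rw [oneG_apply, oneG_apply, Pi.smul_apply, oneG_apply]
    exact mulz_zero 2 n x y c
  d_add g x y := (add_zero _).symm
  d_mf g x y := by
    change (0 : Fin 2 → Fun) = (_ : Fun) • (0 : Fin 2 → Fun) + (_ : Fun) • (0 : Fin 2 → Fun)
    rw [smul_zero, smul_zero, add_zero]
  d_cst g c := by
    refine ⟨(fun _ _ => PowerSeries.C c : Gz 0 (n + 1)), ?_, rfl⟩
    change oneG 0 0 g n (fun _ _ => PowerSeries.C c) 0 (0 : Fin 1) = PowerSeries.C c
    rw [oneG_apply]
  dd_add g x y := (add_zero _).symm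
  dd_mb g x y := by
    change (0 : Fun) = _ * 0 + pp 0 _
    rw [mul_zero, zero_add, pp_zero _ _ rfl]
  exact_d g x _ := img_S (n + 1) 0 0 (some g) x
  d_mz g u := rfl
  dd_mz g u := rfl
  dd_fl g w := rfl
  cb_fl g w := by
    change Fin 4 → ℂ at w
    refine (one_apply 1 a (some g) n _ 0).trans ?_
    funext j
    change Fin 2 at j
    change (if (0 : Fin (n + 1)) = 0 then PowerSeries.C (w (Fin.castLE (by decide) j)) else 0 : Fun) = _
    rw [if_pos rfl]
    fin_cases j <;> rfl
  dual g c hc := by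
    change Fin 2 → Fun at c
    have h5 : pp c ![1, 0] = 0 := hc ![1, 0, 0, 0]
    have h6 : pp c ![0, 1] = 0 := hc ![0, 1, 0, 0]
    simp only [pp, Matrix.cons_val_zero, Matrix.cons_val_one, mul_one, mul_zero, add_zero, zero_add]
      at h5 h6
    funext j
    change Fin 2 at j
    fin_cases j
    · exact h5
    · exact h6

/-- `t d/dt` is bijective on the multiples of `t` -/
theorem euler (w : ℂ[X]) : ∃ u : ℂ[X], X * derivative (X * u) = X * w := by
  induction w using Polynomial.induction_on' with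
  | add p q hp hq =>
    obtain ⟨u, hu⟩ := hp
    obtain ⟨v, hv⟩ := hq
    exact ⟨u + v, by rw [mul_add, derivative_add, mul_add, hu, hv, mul_add]⟩
  | monomial m c =>
    refine ⟨C (c / (m + 1)) * X ^ m, ?_⟩
    have h0 : ((m : ℂ) + 1) ≠ 0 := Nat.cast_add_one_ne_zero m
    rw [← C_mul_X_pow_eq_monomial, show (X : ℂ[X]) * (C (c / (m + 1)) * X ^ m) =
      C (c / (m + 1)) * X ^ (m + 1) by ring, derivative_C_mul_X_pow]
    have h1 : c / ((m : ℂ) + 1) * ((m + 1 : ℕ) : ℂ) = c := by
      push_cast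
      field_simp
    rw [h1, Nat.add_sub_cancel]

theorem symb_spec (n : ℕ) (a : ℤ) : (symb n a).Spec where
  rho_res z β j u := rfl
  rs_om z β u := rfl
  residue z β ω _ := ⟨0, tay_zero⟩
  onto z β e he := by
    obtain ⟨w, rfl⟩ := he
    choose u hu using fun i => euler (w i)
    refine ⟨fun i => tay (X * u i), ⟨u, rfl⟩, ?_⟩
    funext i
    change co 1 * PowerSeries.derivative ℂ (tay (X * u i)) = tay (X * w i)
    rw [tay_der, ← tay_X, ← tay_mul, hu i]
  cls z β e he := by
    obtain ⟨w, rfl⟩ := he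
    classical
    refine ⟨(fun _ j => (⟨Pi.single (M := fun _ : Bool => ℂ[X]) β (X * w (Fin.castLE (by decide) j)), ?_⟩ :
      node) : Rz 1 1 none), ?_, ?_⟩
    · intro γ γ'
      have h1 : ∀ γ : Bool, (Pi.single (M := fun _ : Bool => ℂ[X]) β
          (X * w (Fin.castLE (by decide) j)) γ).eval 0 = 0 := by
        intro γ
        by_cases h : γ = β
        · rw [h, Pi.single_eq_same, eval_mul, eval_X, zero_mul]
        · rw [Pi.single_eq_of_ne h, eval_zero]
      rw [h1, h1]
    · funext j
      change Fin 2 at j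
      change tay (Pi.single (M := fun _ : Bool => ℂ[X]) β (X * w (Fin.castLE (by decide) j)) β) = _
      rw [Pi.single_eq_same]
      fin_cases j <;> rfl
    · intro β' hβ'
      funext j
      change Fin 2 at j
      change tay (Pi.single (M := fun _ : Bool => ℂ[X]) β (X * w (Fin.castLE (by decide) j)) β') = 0
      rw [Pi.single_eq_of_ne (M := fun _ : Bool => ℂ[X]) hβ', tay_zero]

theorem symb_hodge (n : ℕ) (a : ℤ) : (symb n a).Hodge where
  glob _ _ _ := rfl
  w0 _ hc _ g _ _ := pp_zero _ _ (hc g)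
  w1 _ hc _ _ _ g _ := pp_zero _ _ (hc g)

/-- A term of the type `Nbhd l b`, for all `l` and all `b > 0`. -/
noncomputable def toy (l b : ℕ) (hb : 0 < b) : Nbhd l b where
  C := coh
  cex := coh_exact l
  I := img
  iex := img_exact
  b_pos := hb
  Gn _ _ := Set.univ
  diff _ _ _ _ _ u := ⟨u, trivial, 0, trivial, (sub_zero u).symm⟩
  cover k M _ _ _ _ _ u _ := ⟨0, ⟨cover k M u⟩⟩
  cover_zero k M _ _ _ u _ _ := ⟨cover k M u⟩
  serre k _ _ _ := img_S k
  symbol n _ _ := symb n (l + n + 2)
  gen n _ _ := symb_gen n (l + n + 2)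
  spec n _ _ := symb_spec n (l + n + 2)
  hodge n _ _ := symb_hodge n (l + n + 2)

end Pool.Agent.H39.FE
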