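import Pool.Agent.H39.FE.Toy
import Pool.Agent.H39.FF.ToyTop
import Pool.Agent.H76.FE.Top

/-!
# A model of `Model` and of `Four` (corner test of the slim text)

The variety `X4` (the numerical data of the product of two K3 surfaces with Picard number one) and the
term `given4` are in `Pool.Agent.H39.FF.ToyTop`.
-/

set_option autoImplicit false

open Finset

namespace Pool.Agent.H39.FE

open Pool.Agent.H31.ND Pool.Agent.H76.FE
open Pool.Agent.H39.FF (X4 given4 Q4 rr4 semi4 many4 nef4 line4_pos h4 g g_neg nsmul4 one4 dv ln_two)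

/-- A term of the type `Model X x`, if `h^0(X, m x)` is not bounded: the sections on `Y'` are the
polynomials of degree at most `a`, the restrictions to the neighbourhoods are the truncations. -/
noncomputable def model {r : ℕ} (X : Var r) (x : X.P)
    (hx : ∀ a : ℕ, ∃ m : ℕ, 0 < m ∧ a + 1 ≤ X.h 0 (m • x)) : Model X x where
  l := 0
  b := 1
  N := toy 0 1 one_pos
  nonzero _ _ := one_pos
  γ a := a + 1
  rs _ n := cut (n + 1)
  lin_rs _ n := cut_lin (n + 1)
  onto a n h y := cut_onto (n + 1) (by omega) y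
  can a n ha := by
    refine ⟨bs (Fin.last a), ?_, ?_⟩
    · intro h
      have h1 : (bs (Fin.last a) : Fin (a + 1) → ℂ) (Fin.last a) = 0 := by
        rw [h]
        rfl
      rw [bs, if_pos rfl] at h1
      exact one_ne_zero h1
    · refine (coh_one 0 _ n (cut (n + 1) (bs (Fin.last a)))).trans ?_
      funext i
      change Fin 1 at i
      have hi : (i : ℕ) = 0 := by omega
      show ex (cut (n + 1) (bs (Fin.last a)) : Fin (n + 1) → ℂ) i = 0
      rw [hi, ex_of_lt _ 0 (Nat.succ_pos n)]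
      show ex (bs (Fin.last a)) 0 = 0
      rw [ex_bs, if_neg]
      rw [Fin.val_last]
      omega
  le a _ := hx a

/-- A term of the type `Four 2`. -/
noncomputable def four : Four 2 where
  toGiven := given4
  dim := rfl
  Q := Q4
  A := (![1, 1] : Fin 2 → ℤ)
  c x := 48 * ((x : Fin 2 → ℤ) 0 * (x : Fin 2 → ℤ) 0 + (x : Fin 2 → ℤ) 1 * (x : Fin 2 → ℤ) 1)
  nonneg x hx := by
    obtain ⟨h1, h2⟩ := (nef4 x).1 hx
    change Fin 2 → ℤ at x
    show 0 ≤ Q4 x x x x
    unfold Q4
    positivity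
  miyaoka x hx := by
    obtain ⟨h1, h2⟩ := (nef4 x).1 hx
    change Fin 2 → ℤ at x
    show 0 ≤ 48 * (x 0 * x 0 + x 1 * x 1)
    positivity
  rr x m := rr4 x m
  one := rfl
  reg := rfl
  serre i hi := by
    show h4 (4 - i) 0 = h4 i 0
    interval_cases i <;> simp [h4]
  kv x hx hq m i hm hi := by
    obtain ⟨h1, h2⟩ := (nef4 x).1 hx
    change Fin 2 → ℤ at x
    have hq' : Q4 x x x ![1, 1] ≠ 0 := hq
    have h3 : 0 < x 0 := by
      refine lt_of_le_of_ne h1 fun h => hq' ?_
      simp [Q4, ← h]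
    have h5 : 0 < x 1 := by
      refine lt_of_le_of_ne h2 fun h => hq' ?_
      simp [Q4, ← h]
    have e1 := nsmul4 m x
    have e2 : (0 : ℤ) < m := by exact_mod_cast hm
    have e3 : g (-(m * x 0)) = 0 := g_neg _ (by nlinarith)
    have e4 : g (-(m * x 1)) = 0 := g_neg _ (by nlinarith)
    show h4 i (m • x : Fin 2 → ℤ) = 0
    unfold h4
    rw [e1, e1, e3, e4]
    have : i ≠ 0 := by omega
    simp [this]
  fukuda x hx _ _ _ := semi4 x hx
  model x hx hq D hD m hm h := model X4 x (by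
    obtain ⟨h1, h2⟩ := (nef4 x).1 hx
    have h3 := line4_pos D hD
    have h' : X4.line D = m • x := h
    rw [h'] at h3
    change Fin 2 → ℤ at x
    have h4 : 0 < (m • x : Fin 2 → ℤ) 0 + (m • x : Fin 2 → ℤ) 1 := h3
    rw [nsmul4, nsmul4, ← mul_add] at h4
    exact many4 x h1 h2 (pos_of_mul_pos_right h4 (by positivity)))

/-- The test is not vacuous: the class `L_1` is nef, its numerical dimension is two, and it is the class
of an effective divisor which is not zero. -/
theorem test : four.X.Nef (![1, 0] : Fin 2 → ℤ) ∧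
    four.Q (![1, 0] : Fin 2 → ℤ) (![1, 0] : Fin 2 → ℤ) (![1, 0] : Fin 2 → ℤ) four.A = 0 ∧
    ¬ four.X.One (![1, 0] : Fin 2 → ℤ) ∧
    ∃ D : four.X.Pr →₀ ℕ, D ≠ 0 ∧ four.X.line D = (1 : ℕ) • (![1, 0] : Fin 2 → ℤ) := by
  refine ⟨(nef4 _).2 ⟨by simp, by simp⟩, ?_, ?_, ?_⟩
  · show Q4 ![1, 0] ![1, 0] ![1, 0] ![1, 1] = 0
    simp [Q4]
  · intro h
    have h1 := one4 (![1, 0] : Fin 2 → ℤ) ((nef4 _).2 ⟨by simp, by simp⟩) h
    simp at h1
  · refine ⟨dv true true 1 0, ?_, ?_⟩
    · intro h
      have h1 : (dv true true 1 0) (true, true) = 0 := by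
        rw [show dv true true 1 0 = 0 from h]
        rfl
      simp [dv] at h1
    · refine (ln_two _ _ _ _).trans ?_
      rw [one_smul]
      rfl

end Pool.Agent.H39.FE
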